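import Mathlib

set_option autoImplicit false

/-!
# The complete invariance property for Menger compacta

For every `n`, every nonempty closed subset of the `n`-dimensional universal Menger compactum
is the fixed point set of a continuous self-map.
-/

namespace Pool.Agent.Results.MP_89afb2_gt.MengerCIP

open Finset Filter Topology

/-- The `n`-dimensional Menger compactum in `ℝ^(2n+1)`: the points all of whose coordinates have
ternary expansions such that, at each position, at most `n` coordinates have the digit `1`. -/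
def menger (n : ℕ) : Set (Fin (2 * n + 1) → ℝ) :=
  {x | ∃ d : Fin (2 * n + 1) → ℕ → Fin 3,
      (∀ i, x i = ∑' k : ℕ, ((d i k : ℕ) : ℝ) / (3 : ℝ) ^ (k + 1)) ∧
      ∀ k : ℕ, (Finset.univ.filter (fun i => d i k = 1)).card ≤ n}

/-! ### Middle thirds -/

/-- `y` lies in the open middle third of a unit cell. -/
def mid (y : ℝ) : Prop := ∀ c : ℤ, 1 / 3 < |y - c|

theorem mid_add_int (y : ℝ) (N : ℤ) : mid (N + y) ↔ mid y := by
  constructor
  · intro h c
    have := h (N + c)
    push_cast at this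
    rwa [show (N : ℝ) + y - (N + c) = y - c by ring] at this
  · intro h c
    have := h (c - N)
    push_cast at this
    rwa [show (y : ℝ) - (c - N) = N + y - c by ring] at this

theorem mid_of_unit {r : ℝ} (h1 : 1 / 3 < r) (h2 : r < 2 / 3) : mid r := by
  intro c
  rcases le_or_gt c 0 with hc | hc
  · have : (c : ℝ) ≤ 0 := by exact_mod_cast hc
    rw [lt_abs]
    left
    linarith
  · have : (1 : ℝ) ≤ c := by exact_mod_cast hc
    rw [lt_abs]
    right
    linarith

/-! ### Ternary expansions -/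

theorem summable_digits (d : ℕ → Fin 3) : Summable fun k : ℕ => ((d k : ℕ) : ℝ) / (3 : ℝ) ^ (k + 1) := by
  have h1 : Summable fun k : ℕ => (2 : ℝ) / 3 * (1 / 3) ^ k :=
    (summable_geometric_of_lt_one (by norm_num) (by norm_num)).mul_left _
  refine Summable.of_nonneg_of_le (fun k => by positivity) (fun k => ?_) h1
  have h2 : ((d k : ℕ) : ℝ) ≤ 2 := by
    have := (d k).isLt
    exact_mod_cast (by omega : (d k : ℕ) ≤ 2)
  rw [div_le_iff₀ (by positivity)]
  have h3 : (2 : ℝ) / 3 * (1 / 3) ^ k * 3 ^ (k + 1) = 2 := by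
    rw [pow_succ, one_div, inv_pow]
    field_simp
  rw [h3]
  exact h2

/-- The value of a ternary expansion. -/
noncomputable def val (d : ℕ → Fin 3) : ℝ := ∑' k : ℕ, ((d k : ℕ) : ℝ) / (3 : ℝ) ^ (k + 1)

theorem val_nonneg (d : ℕ → Fin 3) : 0 ≤ val d := tsum_nonneg fun k => by positivity

theorem val_le_one (d : ℕ → Fin 3) : val d ≤ 1 := by
  have h1 : HasSum (fun k : ℕ => (2 : ℝ) / 3 * (1 / 3) ^ k) 1 := by
    have h := (hasSum_geometric_of_lt_one (by norm_num : (0 : ℝ) ≤ 1 / 3)
      (by norm_num)).mul_left (2 / 3)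
    have e : (2 : ℝ) / 3 * (1 - 1 / 3)⁻¹ = 1 := by norm_num
    rw [e] at h
    exact h
  have h2 : val d ≤ ∑' k : ℕ, (2 : ℝ) / 3 * (1 / 3) ^ k := by
    refine (summable_digits d).tsum_le_tsum (fun k => ?_) h1.summable
    have h2 : ((d k : ℕ) : ℝ) ≤ 2 := by
      have := (d k).isLt
      exact_mod_cast (by omega : (d k : ℕ) ≤ 2)
    rw [div_le_iff₀ (by positivity)]
    have h3 : (2 : ℝ) / 3 * (1 / 3) ^ k * 3 ^ (k + 1) = 2 := by
      rw [pow_succ, one_div, inv_pow]
      field_simp
    rw [h3]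
    exact h2
  rwa [h1.tsum_eq] at h2

theorem val_succ (d : ℕ → Fin 3) : 3 * val d = ((d 0 : ℕ) : ℝ) + val (fun k => d (k + 1)) := by
  unfold val
  rw [(summable_digits d).tsum_eq_zero_add]
  rw [mul_add, ← tsum_mul_left]
  congr 1
  · simp only [zero_add, pow_one]
    field_simp
  · congr 1
    ext k
    rw [pow_succ 3 (k + 1)]
    field_simp

theorem pow_mul_val (d : ℕ → Fin 3) (j : ℕ) :
    ∃ N : ℤ, (3 : ℝ) ^ j * val d = N + val (fun k => d (k + j)) := by
  induction j with
  | zero => exact ⟨0, by simp⟩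
  | succ j ih =>
    obtain ⟨N, hN⟩ := ih
    refine ⟨3 * N + (d j : ℕ), ?_⟩
    have h := val_succ (fun k => d (k + j))
    simp only [zero_add] at h
    have h2 : (fun k => d (k + 1 + j)) = fun k => d (k + (j + 1)) := by
      ext k
      congr 2
      omega
    rw [h2] at h
    rw [pow_succ]
    push_cast
    calc (3 : ℝ) ^ j * 3 * val d = 3 * (3 ^ j * val d) := by ring
      _ = 3 * (N + val (fun k => d (k + j))) := by rw [hN]
      _ = 3 * N + 3 * val (fun k => d (k + j)) := by ring
      _ = _ := by rw [h]; ring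

/-- If `3^j t` is in a middle third, then the `j`-th digit of `t` is `1`. -/
theorem digit_of_mid (d : ℕ → Fin 3) (j : ℕ) (h : mid (3 ^ j * val d)) : d j = 1 := by
  obtain ⟨N, hN⟩ := pow_mul_val d j
  rw [hN, mid_add_int] at h
  have h1 := val_succ (fun k => d (k + j))
  simp only [zero_add] at h1
  have h2 := val_nonneg (fun k => d (k + 1 + j))
  have h3 := val_le_one (fun k => d (k + 1 + j))
  have h4 : (d j : ℕ) = 0 ∨ (d j : ℕ) = 1 ∨ (d j : ℕ) = 2 := by
    have := (d j).isLt
    omega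
  rcases h4 with h4 | h4 | h4
  · exfalso
    rw [h4] at h1
    have h5 := h 0
    push_cast at h1 h5
    rw [lt_abs] at h5
    rcases h5 with h5 | h5 <;> linarith
  · exact Fin.ext h4
  · exfalso
    rw [h4] at h1
    have h5 := h 1
    push_cast at h1 h5
    rw [lt_abs] at h5
    rcases h5 with h5 | h5 <;> linarith

open Classical in
/-- The first digit of `r ∈ [0,1]`, avoiding the digit `1` whenever possible. -/
noncomputable def dig (r : ℝ) : Fin 3 := if r ≤ 1 / 3 then 0 else if r < 2 / 3 then 1 else 2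

/-- The sequence of remainders. -/
noncomputable def rem (t : ℝ) : ℕ → ℝ
  | 0 => t
  | k + 1 => 3 * rem t k - ((dig (rem t k) : ℕ) : ℝ)

theorem rem_mem {t : ℝ} (h0 : 0 ≤ t) (h1 : t ≤ 1) (k : ℕ) : 0 ≤ rem t k ∧ rem t k ≤ 1 := by
  induction k with
  | zero => exact ⟨h0, h1⟩
  | succ k ih =>
    obtain ⟨ih0, ih1⟩ := ih
    simp only [rem, dig]
    split_ifs with h2 h3
    · constructor
      · simp only [Fin.val_zero]
        push_cast
        linarith
      · simp only [Fin.val_zero]
        push_cast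
        linarith
    · push Not at h2
      constructor
      · simp only [Fin.val_one]
        push_cast
        linarith
      · simp only [Fin.val_one]
        push_cast
        linarith
    · push Not at h2 h3
      have h4 : ((2 : Fin 3) : ℕ) = 2 := rfl
      rw [h4]
      constructor
      · push_cast
        linarith
      · push_cast
        linarith

theorem rem_int (t : ℝ) (k : ℕ) : ∃ N : ℤ, (3 : ℝ) ^ k * t = N + rem t k := by
  induction k with
  | zero => exact ⟨0, by simp [rem]⟩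
  | succ k ih =>
    obtain ⟨N, hN⟩ := ih
    refine ⟨3 * N + (dig (rem t k) : ℕ), ?_⟩
    rw [pow_succ]
    push_cast
    simp only [rem]
    linarith

theorem mid_of_dig {t : ℝ} {k : ℕ} (h : dig (rem t k) = 1) : mid (3 ^ k * t) := by
  obtain ⟨N, hN⟩ := rem_int t k
  rw [hN, mid_add_int]
  unfold dig at h
  split_ifs at h with h1 h2
  · exact absurd h (by decide)
  · exact mid_of_unit (not_le.1 h1) h2
  · exact absurd h (by decide)

theorem rem_sum (t : ℝ) (K : ℕ) :
    ∑ k ∈ range K, ((dig (rem t k) : ℕ) : ℝ) / (3 : ℝ) ^ (k + 1) = t - rem t K / 3 ^ K := by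
  induction K with
  | zero => simp [rem]
  | succ K ih =>
    rw [sum_range_succ, ih]
    simp only [rem]
    rw [pow_succ]
    field_simp
    ring

theorem val_dig {t : ℝ} (h0 : 0 ≤ t) (h1 : t ≤ 1) : t = val (fun k => dig (rem t k)) := by
  have h2 : HasSum (fun k => ((dig (rem t k) : ℕ) : ℝ) / (3 : ℝ) ^ (k + 1)) t := by
    rw [(summable_digits _).hasSum_iff_tendsto_nat]
    have h3 : Tendsto (fun K => t - rem t K / 3 ^ K) atTop (𝓝 (t - 0)) := by
      refine Tendsto.const_sub _ ?_
      refine squeeze_zero (fun K => div_nonneg (rem_mem h0 h1 K).1 (by positivity))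
        (fun K => ?_) (tendsto_pow_atTop_nhds_zero_of_lt_one (by norm_num : (0 : ℝ) ≤ 1 / 3)
          (by norm_num))
      rw [one_div, inv_pow, div_eq_mul_inv]
      have := (rem_mem h0 h1 K).2
      have h4 : (0 : ℝ) ≤ (3 ^ K)⁻¹ := by positivity
      nlinarith
    rw [sub_zero] at h3
    refine h3.congr fun K => ?_
    exact (rem_sum t K).symm
  exact h2.tsum_eq.symm

open Classical in
/-- Description of the Menger compactum by middle thirds. -/
theorem mem_menger_iff {n : ℕ} {x : Fin (2 * n + 1) → ℝ} :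
    x ∈ menger n ↔ (∀ l, 0 ≤ x l ∧ x l ≤ 1) ∧
      ∀ j : ℕ, (univ.filter (fun l => mid (3 ^ j * x l))).card ≤ n := by
  constructor
  · rintro ⟨d, hd1, hd2⟩
    have hd1' : ∀ l, x l = val (d l) := hd1
    refine ⟨fun l => ?_, fun j => ?_⟩
    · rw [hd1' l]
      exact ⟨val_nonneg _, val_le_one _⟩
    · refine (card_le_card ?_).trans (hd2 j)
      intro l hl
      rw [mem_filter] at hl ⊢
      refine ⟨mem_univ _, ?_⟩
      rw [hd1' l] at hl
      exact digit_of_mid _ _ hl.2
  · rintro ⟨h1, h2⟩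
    refine ⟨fun l k => dig (rem (x l) k), fun l => val_dig (h1 l).1 (h1 l).2, fun k => ?_⟩
    refine (card_le_card ?_).trans (h2 k)
    intro l hl
    rw [mem_filter] at hl ⊢
    exact ⟨mem_univ _, mid_of_dig hl.2⟩

/-! ### Staircase functions -/

/-- Interpolation of the sequence `p` at the natural numbers, with the transition function `cl`
on each unit cell. -/
noncomputable def stair (p : ℕ → ℝ) (cl : ℝ → ℝ) (y : ℝ) : ℝ :=
  p ⌊y⌋₊ + (p (⌊y⌋₊ + 1) - p ⌊y⌋₊) * cl (y - ⌊y⌋₊)

theorem stair_eval {p : ℕ → ℝ} {cl : ℝ → ℝ} (hcl0 : ∀ z ≤ 0, cl z = 0) (hcl1 : ∀ z, 1 ≤ z → cl z = 1)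
    {y : ℝ} {m : ℕ} (h1 : (m : ℝ) ≤ y) (h2 : y ≤ m + 1) :
    stair p cl y = p m + (p (m + 1) - p m) * cl (y - m) := by
  unfold stair
  rcases h2.lt_or_eq with h2 | h2
  · have h3 : ⌊y⌋₊ = m := by
      rw [Nat.floor_eq_iff ((Nat.cast_nonneg m).trans h1)]
      exact ⟨h1, h2⟩
    rw [h3]
  · have h3 : ⌊y⌋₊ = m + 1 := by
      rw [h2]
      exact_mod_cast Nat.floor_natCast (R := ℝ) (m + 1)
    rw [h3, h2]
    have h4 : cl ((m : ℝ) + 1 - ((m + 1 : ℕ) : ℝ)) = 0 := hcl0 _ (by push_cast; linarith)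
    have h5 : cl ((m : ℝ) + 1 - m) = 1 := hcl1 _ (by linarith)
    rw [h4, h5]
    ring

theorem stair_neg {p : ℕ → ℝ} {cl : ℝ → ℝ} (hcl0 : ∀ z ≤ 0, cl z = 0) {y : ℝ} (h : y ≤ 0) :
    stair p cl y = p 0 := by
  unfold stair
  rw [Nat.floor_of_nonpos h]
  simp only [Nat.cast_zero, sub_zero]
  rw [hcl0 y h]
  ring

theorem stair_sum {p : ℕ → ℝ} {cl : ℝ → ℝ} (hcl0 : ∀ z ≤ 0, cl z = 0) (hcl1 : ∀ z, 1 ≤ z → cl z = 1)
    {y : ℝ} {N : ℕ} (hN : y ≤ N) :
    stair p cl y = p 0 + ∑ m ∈ range N, (p (m + 1) - p m) * cl (y - m) := by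
  induction N generalizing y with
  | zero =>
    rw [stair_neg hcl0 (by simpa using hN)]
    simp
  | succ N ih =>
    rw [sum_range_succ]
    rcases le_total y N with h | h
    · rw [ih h, hcl0 (y - N) (by linarith)]
      ring
    · rw [stair_eval hcl0 hcl1 h (by exact_mod_cast hN)]
      have h3 : ∑ m ∈ range N, (p (m + 1) - p m) * cl (y - m) = p N - p 0 := by
        rw [← sum_range_sub]
        refine sum_congr rfl fun m hm => ?_
        rw [mem_range] at hm
        have h4 : (m : ℝ) + 1 ≤ N := by exact_mod_cast hm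
        rw [hcl1 _ (by linarith), mul_one]
      rw [h3]
      ring

theorem continuous_stair {p : ℕ → ℝ} {cl : ℝ → ℝ} (hcl0 : ∀ z ≤ 0, cl z = 0)
    (hcl1 : ∀ z, 1 ≤ z → cl z = 1) (hc : Continuous cl) : Continuous (stair p cl) := by
  rw [continuous_iff_continuousAt]
  intro y
  obtain ⟨N, hN⟩ := exists_nat_gt y
  have h1 : Continuous fun y : ℝ => p 0 + ∑ m ∈ range N, (p (m + 1) - p m) * cl (y - m) := by
    fun_prop
  refine h1.continuousAt.congr ?_
  filter_upwards [Iio_mem_nhds hN] with z hz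
  exact (stair_sum hcl0 hcl1 (le_of_lt hz)).symm

/-- Clamping to `[0,1]`. -/
def cl01 (z : ℝ) : ℝ := max 0 (min 1 z)

theorem cl01_of_nonpos {z : ℝ} (h : z ≤ 0) : cl01 z = 0 :=
  max_eq_left ((min_le_right _ _).trans h)

theorem cl01_of_one_le {z : ℝ} (h : 1 ≤ z) : cl01 z = 1 := by
  unfold cl01
  rw [min_eq_left h]
  exact max_eq_right zero_le_one

theorem cl01_nonneg (z : ℝ) : 0 ≤ cl01 z := le_max_left _ _

theorem cl01_le_one (z : ℝ) : cl01 z ≤ 1 := max_le zero_le_one (min_le_left _ _)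

theorem continuous_cl01 : Continuous cl01 := by
  unfold cl01
  fun_prop

/-- If the clamped value is strictly between `0` and `1`, so is the original one. -/
theorem of_cl01 {z : ℝ} (h0 : 0 < cl01 z) (h1 : cl01 z < 1) : 0 < z ∧ z < 1 := by
  constructor
  · by_contra h
    rw [cl01_of_nonpos (not_lt.1 h)] at h0
    exact lt_irrefl _ h0
  · by_contra h
    rw [cl01_of_one_le (not_lt.1 h)] at h1
    exact lt_irrefl _ h1

/-! ### The sign sequence and the function `Xi` -/

/-- The sign sequence: `eps 0 = 1`, `eps (3m) = eps m`, `eps (3m+1) = -1`, `eps (3m+2) = 1`. -/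
def eps : ℕ → ℤ
  | 0 => 1
  | m + 1 => if (m + 1) % 3 = 0 then eps ((m + 1) / 3) else if (m + 1) % 3 = 1 then -1 else 1
decreasing_by omega

theorem eps_zero : eps 0 = 1 := by rw [eps]

theorem eps_three (m : ℕ) : eps (3 * m) = eps m := by
  rcases Nat.eq_zero_or_pos m with h | h
  · subst h
    rfl
  · obtain ⟨k, hk⟩ : ∃ k, 3 * m = k + 1 := ⟨3 * m - 1, by omega⟩
    rw [hk, eps, ← hk]
    rw [if_pos (by omega)]
    congr 1
    omega

theorem eps_one (m : ℕ) : eps (3 * m + 1) = -1 := by
  rw [eps, if_neg (by omega), if_pos (by omega)]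

theorem eps_two (m : ℕ) : eps (3 * m + 2) = 1 := by
  rw [show 3 * m + 2 = (3 * m + 1) + 1 by ring, eps, if_neg (by omega), if_neg (by omega)]

theorem eps_pow (i m : ℕ) : eps (3 ^ i * m) = eps m := by
  induction i with
  | zero => simp
  | succ i ih => rw [pow_succ, mul_comm (3 ^ i) 3, mul_assoc, eps_three, ih]

theorem eps_cases (m : ℕ) : eps m = 1 ∨ eps m = -1 := by
  induction m using Nat.strong_induction_on with
  | _ m ih =>
    rcases Nat.eq_zero_or_pos m with h | h
    · subst h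
      exact Or.inl eps_zero
    · have h3 : m % 3 = 0 ∨ m % 3 = 1 ∨ m % 3 = 2 := by omega
      rcases h3 with h3 | h3 | h3
      · have h4 : m = 3 * (m / 3) := by omega
        rw [h4, eps_three]
        exact ih _ (by omega)
      · have h4 : m = 3 * (m / 3) + 1 := by omega
        rw [h4, eps_one]
        exact Or.inr rfl
      · have h4 : m = 3 * (m / 3) + 2 := by omega
        rw [h4, eps_two]
        exact Or.inl rfl

/-- The plateau values. -/
def pv (m : ℕ) : ℝ := m + eps m

/-- The ramp function of `Xi`. -/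
def ramp (z : ℝ) : ℝ := cl01 (81 * z - 36)

/-- The basic coordinate function at scale `1`. -/
noncomputable def Xi : ℝ → ℝ := stair pv ramp

theorem ramp0 : ∀ z ≤ 0, ramp z = 0 := fun z hz => cl01_of_nonpos (by linarith)

theorem ramp1 : ∀ z, 1 ≤ z → ramp z = 1 := fun z hz => cl01_of_one_le (by linarith)

theorem continuous_Xi : Continuous Xi :=
  continuous_stair ramp0 ramp1 (continuous_cl01.comp (by fun_prop))

theorem Xi_eval {y : ℝ} {m : ℕ} (h1 : (m : ℝ) ≤ y) (h2 : y ≤ m + 1) :
    Xi y = pv m + (pv (m + 1) - pv m) * ramp (y - m) := stair_eval ramp0 ramp1 h1 h2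

/-- Every nonnegative real lies in a unit cell. -/
theorem exists_cell {y : ℝ} (h : 0 ≤ y) : ∃ m : ℕ, (m : ℝ) ≤ y ∧ y ≤ m + 1 :=
  ⟨⌊y⌋₊, Nat.floor_le h, (Nat.lt_floor_add_one y).le⟩

theorem pv_bounds (m : ℕ) : (m : ℝ) - 1 ≤ pv m ∧ pv m ≤ m + 1 := by
  unfold pv
  rcases eps_cases m with h | h <;> rw [h] <;> push_cast <;> constructor <;> linarith

theorem pv_int (m : ℕ) : ∃ c : ℤ, pv m = c := ⟨m + eps m, by unfold pv; push_cast; rfl⟩

theorem Xi_near {y : ℝ} (h : 0 ≤ y) : |Xi y - y| ≤ 2 := by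
  obtain ⟨m, h1, h2⟩ := exists_cell h
  rw [Xi_eval h1 h2]
  have h3 := pv_bounds m
  have h4 := pv_bounds (m + 1)
  push_cast at h4
  have h5 : 0 ≤ ramp (y - m) := cl01_nonneg _
  have h6 : ramp (y - m) ≤ 1 := cl01_le_one _
  rw [abs_le]
  constructor <;> nlinarith

/-- Off the ramps the values are integers. -/
theorem mid_of_Xi {y : ℝ} (h : 0 ≤ y) (hx : ¬ ∃ c : ℤ, Xi y = c) : mid y ∧ mid (3 * y) := by
  obtain ⟨m, h1, h2⟩ := exists_cell h
  rw [Xi_eval h1 h2] at hx
  have h3 : 0 < ramp (y - m) := by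
    rcases (cl01_nonneg (81 * (y - m) - 36)).lt_or_eq with h3 | h3
    · exact h3
    · exfalso
      apply hx
      unfold ramp
      rw [← h3, mul_zero, add_zero]
      exact pv_int m
  have h4 : ramp (y - m) < 1 := by
    rcases (cl01_le_one (81 * (y - m) - 36)).lt_or_eq with h4 | h4
    · exact h4
    · exfalso
      apply hx
      unfold ramp
      rw [h4, mul_one, add_sub_cancel]
      exact pv_int (m + 1)
  obtain ⟨h5, h6⟩ := of_cl01 h3 h4
  constructor
  · have h7 : y = ((m : ℤ) : ℝ) + (y - m) := by push_cast; ring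
    rw [h7, mid_add_int]
    exact mid_of_unit (by linarith) (by linarith)
  · have h7 : 3 * y = ((3 * m + 1 : ℤ) : ℝ) + (3 * (y - m) - 1) := by push_cast; ring
    rw [h7, mid_add_int]
    exact mid_of_unit (by linarith) (by linarith)

/-- The plateau around the integer `c`. -/
theorem Xi_plateau {y : ℝ} {c : ℕ} (h0 : 0 ≤ y) (h : |y - c| ≤ 4 / 9) : Xi y = pv c := by
  rw [abs_le] at h
  rcases le_total (c : ℝ) y with hc | hc
  · rw [Xi_eval hc (by linarith [h.2])]
    have : ramp (y - c) = 0 := cl01_of_nonpos (by linarith [h.2])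
    rw [this]
    ring
  · rcases Nat.eq_zero_or_pos c with h3 | h3
    · subst h3
      have h4 : y = 0 := le_antisymm (by simpa using hc) h0
      rw [h4, Xi_eval (m := 0) (by simp) (by simp)]
      have : ramp (0 - ((0 : ℕ) : ℝ)) = 0 := cl01_of_nonpos (by norm_num)
      rw [this]
      ring
    · obtain ⟨m, rfl⟩ : ∃ m, c = m + 1 := ⟨c - 1, by omega⟩
      push_cast at h hc
      rw [Xi_eval (m := m) (by linarith [h.1]) hc]
      have : ramp (y - m) = 1 := cl01_of_one_le (by linarith [h.1])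
      rw [this]
      ring

/-- Fixed points of `Xi` lie in middle thirds. -/
theorem Xi_ne {y : ℝ} (h0 : 0 ≤ y) (h : ¬ mid y) : Xi y ≠ y := by
  unfold mid at h
  push Not at h
  obtain ⟨c, hc⟩ := h
  have hc0 : 0 ≤ c := by
    by_contra hneg
    have h1 : c ≤ -1 := by omega
    have h2 : (c : ℝ) ≤ -1 := by exact_mod_cast h1
    rw [abs_le] at hc
    linarith [hc.2]
  obtain ⟨m, rfl⟩ := Int.eq_ofNat_of_zero_le hc0
  push_cast at hc
  rw [Xi_plateau h0 (hc.trans (by norm_num))]
  intro heq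
  rw [← heq] at hc
  unfold pv at hc
  rcases eps_cases m with h | h <;> rw [h] at hc <;> rw [abs_le] at hc <;> push_cast at hc <;>
    linarith [hc.1, hc.2]

/-- `Xi` maps an integer interval whose end points move inwards into itself. -/
theorem Xi_interval {p q : ℕ} (hp : eps p = 1) (hq : eps q = -1) {y : ℝ} (h1 : (p : ℝ) ≤ y)
    (h2 : y ≤ q) : (p : ℝ) ≤ Xi y ∧ Xi y ≤ q := by
  have hpq : p ≠ q := by
    rintro rfl
    rw [hp] at hq
    exact absurd hq (by decide)
  have hlt : p < q := lt_of_le_of_ne (by exact_mod_cast h1.trans h2) hpq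
  have hpv : ∀ m : ℕ, p ≤ m → m ≤ q → (p : ℝ) ≤ pv m ∧ pv m ≤ q := by
    intro m hm1 hm2
    have e1 : (p : ℤ) ≤ m + eps m ∧ (m : ℤ) + eps m ≤ q := by
      rcases eps_cases m with h | h
      · have : m ≠ q := by
          rintro rfl
          rw [hq] at h
          exact absurd h (by decide)
        rw [h]
        omega
      · have : m ≠ p := by
          rintro rfl
          rw [hp] at h
          exact absurd h (by decide)
        rw [h]
        omega
    unfold pv
    exact_mod_cast e1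
  obtain ⟨m, hm1, hm2, hm3, hm4⟩ : ∃ m : ℕ, p ≤ m ∧ m + 1 ≤ q ∧ (m : ℝ) ≤ y ∧ y ≤ m + 1 := by
    rcases h2.lt_or_eq with h3 | h3
    · have hy0 : 0 ≤ y := (Nat.cast_nonneg p).trans h1
      refine ⟨⌊y⌋₊, Nat.le_floor h1, ?_, Nat.floor_le hy0, (Nat.lt_floor_add_one y).le⟩
      have : ⌊y⌋₊ < q := (Nat.floor_lt hy0).2 h3
      omega
    · refine ⟨q - 1, by omega, by omega, ?_, ?_⟩
      · rw [h3]
        exact_mod_cast Nat.sub_le q 1
      · rw [h3]
        exact_mod_cast (by omega : q ≤ q - 1 + 1)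
  rw [Xi_eval hm3 hm4]
  obtain ⟨a1, a2⟩ := hpv m hm1 (by omega)
  obtain ⟨b1, b2⟩ := hpv (m + 1) (by omega) hm2
  have h5 : 0 ≤ ramp (y - m) := cl01_nonneg _
  have h6 : ramp (y - m) ≤ 1 := cl01_le_one _
  constructor <;> nlinarith

/-- `Xi` preserves the components of the complements of the coarser middle thirds. -/
theorem Xi_coarse {y : ℝ} (h0 : 0 ≤ y) {i c : ℕ} (h : |y / 3 ^ (i + 1) - c| ≤ 1 / 3) :
    |Xi y / 3 ^ (i + 1) - c| ≤ 1 / 3 := by
  have hpow : (0 : ℝ) < 3 ^ (i + 1) := by positivity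
  have hpow' : (3 : ℝ) ^ (i + 1) = 3 * 3 ^ i := by rw [pow_succ]; ring
  rw [abs_le] at h
  have h1 : y ≤ ((3 ^ i * (3 * c + 1) : ℕ) : ℝ) := by
    have := h.2
    rw [sub_le_iff_le_add, div_le_iff₀ hpow] at this
    push_cast
    rw [hpow'] at this
    nlinarith
  have hq : eps (3 ^ i * (3 * c + 1)) = -1 := by rw [eps_pow, eps_one]
  have key : ∀ w : ℝ, ((c : ℝ) - 1 / 3) * 3 ^ (i + 1) ≤ w → w ≤ ((3 ^ i * (3 * c + 1) : ℕ) : ℝ) →
      |w / 3 ^ (i + 1) - c| ≤ 1 / 3 := by
    intro w hw1 hw2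
    push_cast at hw2
    rw [abs_le]
    constructor
    · rw [le_sub_iff_add_le, le_div_iff₀ hpow]
      linarith
    · rw [sub_le_iff_le_add, div_le_iff₀ hpow]
      rw [hpow']
      nlinarith
  rcases Nat.eq_zero_or_pos c with hc | hc
  · subst hc
    obtain ⟨h3, h4⟩ := Xi_interval (p := 0) eps_zero hq (by simpa using h0) h1
    refine key _ ?_ h4
    have h5 : (0 : ℝ) ≤ Xi y := by simpa using h3
    push_cast
    nlinarith
  · obtain ⟨b, rfl⟩ : ∃ b, c = b + 1 := ⟨c - 1, by omega⟩
    have hp : eps (3 ^ i * (3 * b + 2)) = 1 := by rw [eps_pow, eps_two]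
    have h2 : ((3 ^ i * (3 * b + 2) : ℕ) : ℝ) ≤ y := by
      have := h.1
      rw [le_sub_iff_add_le, le_div_iff₀ hpow] at this
      push_cast at this ⊢
      rw [hpow'] at this
      nlinarith
    obtain ⟨h3, h4⟩ := Xi_interval hp hq h2 h1
    refine key _ ?_ h4
    push_cast at h3 ⊢
    rw [hpow']
    nlinarith

/-! ### The coordinate functions at scale `3^(-k)` -/

/-- The coordinate function at scale `3^(-k)`. -/
noncomputable def psi (k : ℕ) (t : ℝ) : ℝ := Xi (3 ^ k * t) / 3 ^ k

theorem continuous_psi (k : ℕ) : Continuous (psi k) :=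
  (continuous_Xi.comp (continuous_const.mul continuous_id)).div_const _

theorem psi_mem (k : ℕ) {t : ℝ} (h0 : 0 ≤ t) (h1 : t ≤ 1) : 0 ≤ psi k t ∧ psi k t ≤ 1 := by
  have hq : eps (3 ^ k) = -1 := by
    have h := eps_pow k 1
    rw [mul_one] at h
    rw [h]
    exact eps_one 0
  have hpow : (0 : ℝ) < 3 ^ k := by positivity
  obtain ⟨h2, h3⟩ := Xi_interval (p := 0) (q := 3 ^ k) eps_zero hq (y := 3 ^ k * t)
    (by simpa using mul_nonneg hpow.le h0) (by push_cast; nlinarith)
  push_cast at h2 h3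
  unfold psi
  exact ⟨div_nonneg h2 hpow.le, (div_le_one hpow).2 h3⟩

theorem psi_near (k : ℕ) {t : ℝ} (h0 : 0 ≤ t) : |psi k t - t| ≤ 2 / 3 ^ k := by
  have hpow : (0 : ℝ) < 3 ^ k := by positivity
  have h1 := Xi_near (mul_nonneg hpow.le h0)
  have h2 : psi k t - t = (Xi (3 ^ k * t) - 3 ^ k * t) / 3 ^ k := by
    unfold psi
    field_simp
  rw [h2, abs_div, abs_of_pos hpow]
  exact div_le_div_of_nonneg_right h1 hpow.le

theorem exists_nat_of_not_mid {y : ℝ} (h0 : 0 ≤ y) (h : ¬ mid y) : ∃ c : ℕ, |y - c| ≤ 1 / 3 := by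
  unfold mid at h
  push Not at h
  obtain ⟨c, hc⟩ := h
  have hc0 : 0 ≤ c := by
    by_contra hneg
    have h1 : c ≤ -1 := by omega
    have h2 : (c : ℝ) ≤ -1 := by exact_mod_cast h1
    rw [abs_le] at hc
    linarith [hc.2]
  obtain ⟨m, rfl⟩ := Int.eq_ofNat_of_zero_le hc0
  exact ⟨m, by exact_mod_cast hc⟩

theorem not_mid_of {y : ℝ} {c : ℕ} (h : |y - c| ≤ 1 / 3) : ¬ mid y := by
  intro hm
  have := hm c
  push_cast at this
  linarith

theorem psi_coarse {j k : ℕ} (hjk : j < k) {t : ℝ} (h0 : 0 ≤ t) {c : ℕ}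
    (h : |3 ^ j * t - c| ≤ 1 / 3) : |3 ^ j * psi k t - c| ≤ 1 / 3 := by
  obtain ⟨i, rfl⟩ : ∃ i, k = j + (i + 1) := ⟨k - j - 1, by omega⟩
  have e : ∀ w : ℝ, w / 3 ^ (i + 1) = 3 ^ j * (w / 3 ^ (j + (i + 1))) := by
    intro w
    rw [pow_add 3 j (i + 1)]
    field_simp
  have h1 : |(3 ^ (j + (i + 1)) * t) / 3 ^ (i + 1) - c| ≤ 1 / 3 := by
    rw [e]
    have : (3 : ℝ) ^ (j + (i + 1)) * t / 3 ^ (j + (i + 1)) = t := by field_simp
    rw [this]
    exact h
  have h2 := Xi_coarse (mul_nonneg (by positivity) h0) h1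
  rw [e] at h2
  exact h2

/-- If a value times `3^k` is an integer, it is not in a middle third of level `j ≥ k`. -/
theorem not_mid_int (c : ℤ) (i : ℕ) : ¬ mid ((3 : ℝ) ^ i * c) := by
  intro h
  have h1 := h (3 ^ i * c)
  push_cast at h1
  rw [sub_self, abs_zero] at h1
  linarith

theorem not_mid_of_int {k j : ℕ} (hkj : k ≤ j) {v : ℝ} (h : ∃ c : ℤ, (3 : ℝ) ^ k * v = c) :
    ¬ mid (3 ^ j * v) := by
  obtain ⟨c, hc⟩ := h
  obtain ⟨i, rfl⟩ := Nat.exists_eq_add_of_le hkj
  have : (3 : ℝ) ^ (k + i) * v = 3 ^ i * c := by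
    rw [pow_add, ← hc]
    ring
  rw [this]
  exact not_mid_int c i

theorem psi_int_or (k : ℕ) {t : ℝ} (h0 : 0 ≤ t) :
    (∃ c : ℤ, (3 : ℝ) ^ k * psi k t = c) ∨ (mid (3 ^ k * t) ∧ mid (3 ^ (k + 1) * t)) := by
  by_cases h : ∃ c : ℤ, Xi (3 ^ k * t) = c
  · left
    obtain ⟨c, hc⟩ := h
    refine ⟨c, ?_⟩
    unfold psi
    rw [hc]
    field_simp
  · right
    have h1 := mid_of_Xi (mul_nonneg (by positivity) h0) h
    rw [pow_succ' 3 k, mul_assoc]
    exact h1

theorem psi_ne (k : ℕ) {t : ℝ} (h0 : 0 ≤ t) (h : ¬ mid (3 ^ k * t)) : psi k t ≠ t := by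
  intro heq
  apply Xi_ne (mul_nonneg (by positivity) h0) h
  unfold psi at heq
  rw [div_eq_iff (by positivity)] at heq
  rw [heq]
  ring

/-! ### Walls -/

/-- The ramp function of the wall staircase. -/
noncomputable def wramp (z : ℝ) : ℝ := cl01 ((243 * z - 37) / 2)

theorem wramp0 : ∀ z ≤ 0, wramp z = 0 := fun z hz => cl01_of_nonpos (by linarith)

theorem wramp1 : ∀ z, 1 ≤ z → wramp z = 1 := fun z hz => cl01_of_one_le (by linarith)

/-- The wall staircase: integer valued except on the wall intervals. -/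
noncomputable def wst : ℝ → ℝ := stair (fun m => (m : ℝ)) wramp

theorem continuous_wst : Continuous wst :=
  continuous_stair wramp0 wramp1 (continuous_cl01.comp (by fun_prop))

theorem wst_eval {z : ℝ} {m : ℕ} (h1 : (m : ℝ) ≤ z) (h2 : z ≤ m + 1) :
    wst z = m + wramp (z - m) := by
  unfold wst
  rw [stair_eval wramp0 wramp1 h1 h2]
  push_cast
  ring

theorem wst_near {z : ℝ} (h0 : 0 ≤ z) : |wst z - z| ≤ 1 := by
  obtain ⟨m, h1, h2⟩ := exists_cell h0
  rw [wst_eval h1 h2]
  have h3 : 0 ≤ wramp (z - m) := cl01_nonneg _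
  have h4 : wramp (z - m) ≤ 1 := cl01_le_one _
  rw [abs_le]
  constructor <;> linarith

theorem wst_wall {z : ℝ} (h0 : 0 ≤ z) (h : ¬ ∃ c : ℤ, wst z = c) :
    ∃ m : ℕ, 3 * (m : ℝ) + 37 / 81 < 3 * z ∧ 3 * z < 3 * m + 39 / 81 := by
  obtain ⟨m, h1, h2⟩ := exists_cell h0
  rw [wst_eval h1 h2] at h
  have h3 : 0 < wramp (z - m) := by
    rcases (cl01_nonneg ((243 * (z - m) - 37) / 2)).lt_or_eq with h3 | h3
    · exact h3
    · exfalso
      apply h
      refine ⟨m, ?_⟩
      unfold wramp
      rw [← h3, add_zero]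
      push_cast
      rfl
  have h4 : wramp (z - m) < 1 := by
    rcases (cl01_le_one ((243 * (z - m) - 37) / 2)).lt_or_eq with h4 | h4
    · exact h4
    · exfalso
      apply h
      refine ⟨m + 1, ?_⟩
      unfold wramp
      rw [h4]
      push_cast
      rfl
  obtain ⟨h5, h6⟩ := of_cl01 h3 h4
  exact ⟨m, by linarith, by linarith⟩

/-- The wall coordinate at scale `k`. -/
noncomputable def lam (k : ℕ) (t : ℝ) : ℝ := wst (3 ^ k * t / 3)

theorem continuous_lam (k : ℕ) : Continuous (lam k) :=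
  continuous_wst.comp (by fun_prop)

theorem lam_near (k : ℕ) {t : ℝ} (h0 : 0 ≤ t) : |lam k t - 3 ^ k * t / 3| ≤ 1 :=
  wst_near (by positivity)

/-- On the walls of scale `k` the functions `psi k` and `psi (k+1)` take the same value, a
multiple of `3^(-k)` different from the argument, and the argument lies in a middle third of
level `k+1`. -/
theorem wall {k : ℕ} {t : ℝ} (h0 : 0 ≤ t) (h : ¬ ∃ c : ℤ, lam k t = c) :
    mid (3 ^ (k + 1) * t) ∧ psi k t = psi (k + 1) t ∧ (∃ c : ℤ, (3 : ℝ) ^ k * psi k t = c) ∧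
      psi k t ≠ t := by
  have hpow : (0 : ℝ) < 3 ^ k := by positivity
  obtain ⟨m, h1, h2⟩ := wst_wall (by positivity) h
  rw [mul_div_cancel₀ _ (by norm_num : (3 : ℝ) ≠ 0)] at h1 h2
  set y : ℝ := 3 ^ k * t with hy
  have hy0 : 0 ≤ y := by positivity
  have e1 : Xi y = 3 * m := by
    rw [Xi_eval (m := 3 * m) (by push_cast; linarith) (by push_cast; linarith)]
    have : ramp (y - ((3 * m : ℕ) : ℝ)) = 1 := cl01_of_one_le (by push_cast; linarith)
    rw [this]
    unfold pv
    rw [eps_one]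
    push_cast
    ring
  have e2 : Xi (3 * y) = 9 * m := by
    rw [Xi_plateau (c := 3 * (3 * m) + 1) (by positivity)]
    · unfold pv
      rw [eps_one]
      push_cast
      ring
    · rw [abs_le]
      push_cast
      constructor <;> linarith
  have e3 : (3 : ℝ) ^ (k + 1) * t = 3 * y := by
    rw [pow_succ, hy]
    ring
  refine ⟨?_, ?_, ?_, ?_⟩
  · rw [e3]
    have h7 : 3 * y = ((9 * m + 1 : ℤ) : ℝ) + (3 * (y - 3 * m) - 1) := by push_cast; ring
    rw [h7, mid_add_int]
    exact mid_of_unit (by linarith) (by linarith)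
  · unfold psi
    rw [e3, ← hy, e1, e2, pow_succ]
    field_simp
    norm_num
    ring
  · refine ⟨3 * m, ?_⟩
    unfold psi
    rw [← hy, e1]
    push_cast
    field_simp
  · intro heq
    unfold psi at heq
    rw [← hy, e1, div_eq_iff hpow.ne'] at heq
    linarith

/-! ### Switching the scale one coordinate at a time -/

/-- The switching parameter of the coordinate `l`. -/
def sig (n l : ℕ) (s : ℝ) : ℝ := cl01 ((2 * n + 1) * s - l)

theorem sig_zero (n l : ℕ) : sig n l 0 = 0 := by
  refine cl01_of_nonpos ?_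
  have : (0 : ℝ) ≤ l := Nat.cast_nonneg l
  linarith

theorem sig_one {n l : ℕ} (h : l < 2 * n + 1) : sig n l 1 = 1 := by
  refine cl01_of_one_le ?_
  have : (l : ℝ) + 1 ≤ 2 * n + 1 := by exact_mod_cast h
  linarith

theorem continuous_sig (n l : ℕ) : Continuous (sig n l) :=
  continuous_cl01.comp (by fun_prop)

/-- The value of the coordinate `l` during the switch from scale `k` to scale `k+1`. -/
noncomputable def value (n k : ℕ) (s : ℝ) (x : Fin (2 * n + 1) → ℝ) (l : Fin (2 * n + 1)) : ℝ :=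
  psi k (x l) + sig n l s * (psi (k + 1) (x l) - psi k (x l))

theorem convex_near {a b u v r w : ℝ} (ha : |a - w| ≤ r) (hb : |b - w| ≤ r) (hu : 0 ≤ u)
    (hu1 : u ≤ 1) (hv : v = a + u * (b - a)) : |v - w| ≤ r := by
  rw [abs_le] at *
  rw [hv]
  constructor <;> nlinarith

theorem not_mid_third (c : ℤ) : ¬ mid ((c : ℝ) / 3) := by
  intro h
  have h3 : c % 3 = 0 ∨ c % 3 = 1 ∨ c % 3 = 2 := by omega
  rcases h3 with h3 | h3 | h3
  · have h4 : c = 3 * (c / 3) := by omega
    have h5 := h (c / 3)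
    have h6 : (c : ℝ) = 3 * ((c / 3 : ℤ) : ℝ) := by exact_mod_cast h4
    rw [h6] at h5
    rw [lt_abs] at h5
    rcases h5 with h5 | h5 <;> linarith
  · have h4 : c = 3 * (c / 3) + 1 := by omega
    have h5 := h (c / 3)
    have h6 : (c : ℝ) = 3 * ((c / 3 : ℤ) : ℝ) + 1 := by exact_mod_cast h4
    rw [h6] at h5
    rw [lt_abs] at h5
    rcases h5 with h5 | h5 <;> linarith
  · have h4 : c = 3 * (c / 3) + 2 := by omega
    have h5 := h (c / 3 + 1)
    have h6 : (c : ℝ) = 3 * ((c / 3 : ℤ) : ℝ) + 2 := by exact_mod_cast h4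
    rw [h6] at h5
    push_cast at h5
    rw [lt_abs] at h5
    rcases h5 with h5 | h5 <;> linarith

theorem not_mid_of_int' {k j : ℕ} (hkj : k ≤ j + 1) {v : ℝ} (h : ∃ c : ℤ, (3 : ℝ) ^ k * v = c) :
    ¬ mid (3 ^ j * v) := by
  rcases Nat.lt_or_ge j k with h1 | h1
  · obtain rfl : k = j + 1 := by omega
    obtain ⟨c, hc⟩ := h
    have : (3 : ℝ) ^ j * v = c / 3 := by
      rw [← hc, pow_succ]
      ring
    rw [this]
    exact not_mid_third c
  · exact not_mid_of_int h1 h

theorem value_mem {n k : ℕ} {s : ℝ} {x : Fin (2 * n + 1) → ℝ} (hx : x ∈ menger n)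
    (hs : s = 0 ∨ ∃ i, ¬ ∃ c : ℤ, lam k (x i) = c) : value n k s x ∈ menger n := by
  classical
  rw [mem_menger_iff] at hx ⊢
  obtain ⟨hx1, hx2⟩ := hx
  refine ⟨fun l => ?_, fun j => ?_⟩
  · obtain ⟨h1, h2⟩ := psi_mem k (hx1 l).1 (hx1 l).2
    obtain ⟨h3, h4⟩ := psi_mem (k + 1) (hx1 l).1 (hx1 l).2
    have h5 : 0 ≤ sig n l s := cl01_nonneg _
    have h6 : sig n l s ≤ 1 := cl01_le_one _
    unfold value
    constructor <;> nlinarith
  · rcases Nat.lt_or_ge j k with hjk | hjk
    · refine (card_le_card ?_).trans (hx2 j)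
      intro l hl
      rw [mem_filter] at hl ⊢
      refine ⟨mem_univ _, ?_⟩
      by_contra hmid
      obtain ⟨c, hc⟩ := exists_nat_of_not_mid (mul_nonneg (by positivity) (hx1 l).1) hmid
      have h1 := psi_coarse hjk (hx1 l).1 hc
      have h2 := psi_coarse (hjk.trans (Nat.lt_succ_self k)) (hx1 l).1 hc
      have h3 : |3 ^ j * value n k s x l - c| ≤ 1 / 3 := by
        refine convex_near h1 h2 (u := sig n l s) (cl01_nonneg _) (cl01_le_one _) ?_
        unfold value
        ring
      exact not_mid_of h3 hl.2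
    · rcases hs with hs | ⟨i, hi⟩
      · refine (card_le_card ?_).trans (hx2 k)
        intro l hl
        rw [mem_filter] at hl ⊢
        refine ⟨mem_univ _, ?_⟩
        have h1 : value n k s x l = psi k (x l) := by
          unfold value
          rw [hs, sig_zero]
          ring
        rw [h1] at hl
        rcases psi_int_or k (hx1 l).1 with h2 | h2
        · exact absurd hl.2 (not_mid_of_int hjk h2)
        · exact h2.1
      · obtain ⟨hw1, hw2, hw3, _⟩ := wall (hx1 i).1 hi
        have hvi : value n k s x i = psi k (x i) := by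
          unfold value
          rw [← hw2]
          ring
        have hsub : univ.filter (fun l => mid (3 ^ j * value n k s x l)) ⊆
            ((univ.filter (fun l => mid (3 ^ (k + 1) * x l))).erase i) ∪
              univ.filter (fun l => 0 < sig n l s ∧ sig n l s < 1) := by
          intro l hl
          rw [mem_filter] at hl
          rw [mem_union, mem_erase, mem_filter, mem_filter]
          by_cases htr : 0 < sig n l s ∧ sig n l s < 1
          · exact Or.inr ⟨mem_univ _, htr⟩
          · left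
            refine ⟨?_, mem_univ _, ?_⟩
            · rintro rfl
              rw [hvi] at hl
              exact not_mid_of_int hjk hw3 hl.2
            · have h5 : sig n l s = 0 ∨ sig n l s = 1 := by
                rcases (cl01_nonneg ((2 * n + 1) * s - l)).lt_or_eq with h5 | h5
                · rcases (cl01_le_one ((2 * n + 1) * s - l)).lt_or_eq with h6 | h6
                  · exact absurd ⟨h5, h6⟩ htr
                  · exact Or.inr h6
                · exact Or.inl h5.symm
              rcases h5 with h5 | h5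
              · have h1 : value n k s x l = psi k (x l) := by
                  unfold value
                  rw [h5]
                  ring
                rw [h1] at hl
                rcases psi_int_or k (hx1 l).1 with h2 | h2
                · exact absurd hl.2 (not_mid_of_int hjk h2)
                · exact h2.2
              · have h1 : value n k s x l = psi (k + 1) (x l) := by
                  unfold value
                  rw [h5]
                  ring
                rw [h1] at hl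
                rcases psi_int_or (k + 1) (hx1 l).1 with h2 | h2
                · exact absurd hl.2 (not_mid_of_int' (by omega) h2)
                · exact h2.1
        have hcard1 : (univ.filter (fun l : Fin (2 * n + 1) => 0 < sig n l s ∧ sig n l s < 1)).card
            ≤ 1 := by
          rw [card_le_one]
          intro l hl l' hl'
          rw [mem_filter] at hl hl'
          obtain ⟨a1, a2⟩ := of_cl01 hl.2.1 hl.2.2
          obtain ⟨b1, b2⟩ := of_cl01 hl'.2.1 hl'.2.2
          have c1 : (l : ℝ) < l' + 1 := by linarith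
          have c2 : (l' : ℝ) < l + 1 := by linarith
          have c3 : (l : ℕ) < l' + 1 := by exact_mod_cast c1
          have c4 : (l' : ℕ) < l + 1 := by exact_mod_cast c2
          exact Fin.ext (by omega)
        have hi' : i ∈ univ.filter (fun l => mid (3 ^ (k + 1) * x l)) := by
          rw [mem_filter]
          exact ⟨mem_univ _, hw1⟩
        have hcard2 := card_erase_of_mem hi'
        have hcard3 := hx2 (k + 1)
        have hcard4 : 0 < (univ.filter (fun l => mid (3 ^ (k + 1) * x l))).card :=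
          card_pos.2 ⟨i, hi'⟩
        have hcard5 := (card_le_card hsub).trans (card_union_le _ _)
        omega

theorem value_ne {n k : ℕ} {s : ℝ} {x : Fin (2 * n + 1) → ℝ} (hx : x ∈ menger n)
    (hs : s = 0 ∨ ∃ i, ¬ ∃ c : ℤ, lam k (x i) = c) : value n k s x ≠ x := by
  classical
  rw [mem_menger_iff] at hx
  obtain ⟨hx1, hx2⟩ := hx
  intro heq
  rcases hs with hs | ⟨i, hi⟩
  · have h1 : ∀ l, mid (3 ^ k * x l) := by
      intro l
      by_contra hmid
      apply psi_ne k (hx1 l).1 hmid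
      have h2 := congrFun heq l
      unfold value at h2
      rw [hs, sig_zero, zero_mul, add_zero] at h2
      exact h2
    have h2 := hx2 k
    rw [filter_true_of_mem (fun l _ => h1 l), card_univ, Fintype.card_fin] at h2
    omega
  · obtain ⟨_, hw2, _, hw4⟩ := wall (hx1 i).1 hi
    apply hw4
    have h2 := congrFun heq i
    unfold value at h2
    rw [← hw2, sub_self, mul_zero, add_zero] at h2
    exact h2

/-! ### The scale function -/

/-- The set of rounded wall coordinates of the points of `A`. -/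
def cells {n : ℕ} (A : Set (Fin (2 * n + 1) → ℝ)) (k : ℕ) : Set (Fin (2 * n + 1) → ℝ) :=
  {w | ∃ a ∈ A, w = fun l => ((⌊lam k (a l)⌋ : ℤ) : ℝ)}

/-- The switching parameter from scale `k` to scale `k+1`. -/
noncomputable def sk {n : ℕ} (A : Set (Fin (2 * n + 1) → ℝ)) (k : ℕ) (x : Fin (2 * n + 1) → ℝ) : ℝ :=
  cl01 (10 - Metric.infDist (fun l => lam k (x l)) (cells A k))

section scale

variable {n : ℕ} {A : Set (Fin (2 * n + 1) → ℝ)}

theorem continuous_sk (k : ℕ) : Continuous (sk A k) := by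
  unfold sk
  refine continuous_cl01.comp (continuous_const.sub ?_)
  refine (Metric.continuous_infDist_pt _).comp ?_
  exact continuous_pi fun l => (continuous_lam k).comp (continuous_apply l)

theorem cells_nonempty (hA : A.Nonempty) (k : ℕ) : (cells A k).Nonempty := by
  obtain ⟨a, ha⟩ := hA
  exact ⟨_, a, ha, rfl⟩

theorem sk_of_mem {a : Fin (2 * n + 1) → ℝ} (ha : a ∈ A) (k : ℕ) : sk A k a = 1 := by
  refine cl01_of_one_le ?_
  have h1 : Metric.infDist (fun l => lam k (a l)) (cells A k) ≤ 1 := by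
    have hmem : (fun l => ((⌊lam k (a l)⌋ : ℤ) : ℝ)) ∈ cells A k := ⟨a, ha, rfl⟩
    refine (Metric.infDist_le_dist_of_mem hmem).trans ?_
    rw [dist_pi_le_iff zero_le_one]
    intro l
    rw [Real.dist_eq, abs_le]
    have h2 := Int.floor_le (lam k (a l))
    have h3 := Int.lt_floor_add_one (lam k (a l))
    constructor <;> linarith
  linarith

theorem sk_wall (hA : A.Nonempty) {k : ℕ} {x : Fin (2 * n + 1) → ℝ} (h0 : 0 < sk A k x)
    (h1 : sk A k x < 1) : ∃ i, ¬ ∃ c : ℤ, lam k (x i) = c := by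
  by_contra hcon
  push Not at hcon
  obtain ⟨h2, h3⟩ := of_cl01 h0 h1
  have h4 : Metric.infDist (fun l => lam k (x l)) (cells A k) < 10 := by linarith
  rw [Metric.infDist_lt_iff (cells_nonempty hA k)] at h4
  obtain ⟨w, hw, hdist⟩ := h4
  have h5 : dist (fun l => lam k (x l)) w ≤ 9 := by
    rw [dist_pi_lt_iff (by norm_num)] at hdist
    rw [dist_pi_le_iff (by norm_num)]
    intro l
    have h6 := hdist l
    obtain ⟨c, hc⟩ := hcon l
    obtain ⟨a, _, rfl⟩ := hw
    simp only at h6 ⊢
    rw [hc, Real.dist_eq] at h6 ⊢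
    have h7 : |c - ⌊lam k (a l)⌋| < 10 := by exact_mod_cast h6
    have h8 : |c - ⌊lam k (a l)⌋| ≤ 9 := by omega
    exact_mod_cast h8
  have h6 := Metric.infDist_le_dist_of_mem (x := fun l => lam k (x l)) hw
  linarith

theorem sk_near (hA : A.Nonempty) (hA' : A ⊆ menger n) {k : ℕ} {x : Fin (2 * n + 1) → ℝ}
    (hx : x ∈ menger n) (h0 : 0 < sk A k x) :
    ∃ a ∈ A, ∀ l, |3 ^ k * x l / 3 - 3 ^ k * a l / 3| < 13 := by
  have h2 : 0 < 10 - Metric.infDist (fun l => lam k (x l)) (cells A k) := by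
    by_contra h
    unfold sk at h0
    rw [cl01_of_nonpos (not_lt.1 h)] at h0
    exact lt_irrefl _ h0
  have h4 : Metric.infDist (fun l => lam k (x l)) (cells A k) < 10 := by linarith
  rw [Metric.infDist_lt_iff (cells_nonempty hA k)] at h4
  obtain ⟨w, ⟨a, ha, rfl⟩, hdist⟩ := h4
  refine ⟨a, ha, fun l => ?_⟩
  rw [dist_pi_lt_iff (by norm_num)] at hdist
  have h6 := hdist l
  rw [Real.dist_eq, abs_lt] at h6
  have hx1 := ((mem_menger_iff.1 hx).1 l).1
  have ha1 := ((mem_menger_iff.1 (hA' ha)).1 l).1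
  have h7 := lam_near k hx1
  have h8 := lam_near k ha1
  rw [abs_le] at h7 h8
  have h9 := Int.floor_le (lam k (a l))
  have h10 := Int.lt_floor_add_one (lam k (a l))
  rw [abs_lt]
  constructor <;> linarith [h6.1, h6.2, h7.1, h7.2, h8.1, h8.2]

theorem sk_step (hA : A.Nonempty) (hA' : A ⊆ menger n) {k : ℕ} {x : Fin (2 * n + 1) → ℝ}
    (hx : x ∈ menger n) (h0 : 0 < sk A (k + 1) x) : sk A k x = 1 := by
  obtain ⟨a, ha, hdist⟩ := sk_near hA hA' hx h0
  refine cl01_of_one_le ?_
  have h1 : Metric.infDist (fun l => lam k (x l)) (cells A k) ≤ 9 := by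
    have hmem : (fun l => ((⌊lam k (a l)⌋ : ℤ) : ℝ)) ∈ cells A k := ⟨a, ha, rfl⟩
    refine (Metric.infDist_le_dist_of_mem hmem).trans ?_
    rw [dist_pi_le_iff (by norm_num)]
    intro l
    have h6 := hdist l
    have hx1 := ((mem_menger_iff.1 hx).1 l).1
    have ha1 := ((mem_menger_iff.1 (hA' ha)).1 l).1
    have h7 := lam_near k hx1
    have h8 := lam_near k ha1
    have h9 := Int.floor_le (lam k (a l))
    have h10 := Int.lt_floor_add_one (lam k (a l))
    rw [pow_succ] at h6
    rw [abs_lt] at h6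
    rw [abs_le] at h7 h8
    rw [Real.dist_eq, abs_le]
    constructor <;> linarith [h6.1, h6.2, h7.1, h7.2, h8.1, h8.2]
  linarith

theorem sk_nonneg (k : ℕ) (x : Fin (2 * n + 1) → ℝ) : 0 ≤ sk A k x := cl01_nonneg _

theorem sk_le_one (k : ℕ) (x : Fin (2 * n + 1) → ℝ) : sk A k x ≤ 1 := cl01_le_one _

/-- Every point has a scale. -/
theorem exists_scale (hA : A.Nonempty) (hA' : A ⊆ menger n) {x : Fin (2 * n + 1) → ℝ}
    (hx : x ∈ menger n) (h : ∃ k, sk A k x ≠ 1) :
    ∃ k, (∀ j < k, sk A j x = 1) ∧ sk A k x < 1 ∧ ∀ j, k < j → sk A j x = 0 := by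
  classical
  refine ⟨Nat.find h, fun j hj => ?_, ?_, ?_⟩
  · by_contra hne
    exact Nat.find_min h hj hne
  · exact lt_of_le_of_ne (sk_le_one _ _) (Nat.find_spec h)
  · have key : ∀ i, sk A (Nat.find h + i + 1) x = 0 := by
      intro i
      induction i with
      | zero =>
        by_contra hne
        exact Nat.find_spec h
          (sk_step hA hA' hx (lt_of_le_of_ne (sk_nonneg _ _) (Ne.symm hne)))
      | succ i ih =>
        by_contra hne
        have h2 := sk_step hA hA' hx (lt_of_le_of_ne (sk_nonneg _ _) (Ne.symm hne))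
        rw [show Nat.find h + (i + 1) = Nat.find h + i + 1 by ring, ih] at h2
        exact zero_ne_one h2
    intro j hj
    obtain ⟨i, rfl⟩ := Nat.exists_eq_add_of_lt hj
    exact key i

theorem mem_of_sk (hA : A.Nonempty) (hA' : A ⊆ menger n) {x : Fin (2 * n + 1) → ℝ}
    (hx : x ∈ menger n) (h : ∀ k, sk A k x = 1) : x ∈ closure A := by
  rw [Metric.mem_closure_iff]
  intro r hr
  obtain ⟨k, hk⟩ := exists_pow_lt_of_lt_one (show (0 : ℝ) < r / 39 by positivity)
    (show (1 / 3 : ℝ) < 1 by norm_num)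
  obtain ⟨a, ha, hdist⟩ := sk_near hA hA' hx (k := k) (by rw [h k]; exact zero_lt_one)
  refine ⟨a, ha, ?_⟩
  rw [dist_pi_lt_iff hr]
  intro l
  have h1 := hdist l
  have hpow : (0 : ℝ) < 3 ^ k := by positivity
  rw [Real.dist_eq]
  have h2 : 3 ^ k * x l / 3 - 3 ^ k * a l / 3 = 3 ^ k / 3 * (x l - a l) := by ring
  rw [h2, abs_mul, abs_of_pos (by positivity)] at h1
  rw [one_div, inv_pow, inv_lt_iff_one_lt_mul₀ hpow] at hk
  have h3 : 39 < 3 ^ k * r := by linarith
  by_contra hcon
  push Not at hcon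
  nlinarith

end scale

/-! ### The self-map -/

/-- The self-map with fixed point set `A`. -/
noncomputable def F {n : ℕ} (A : Set (Fin (2 * n + 1) → ℝ)) (x : Fin (2 * n + 1) → ℝ)
    (l : Fin (2 * n + 1)) : ℝ :=
  psi 0 (x l) + ∑' k : ℕ, sig n l (sk A k x) * (psi (k + 1) (x l) - psi k (x l))

section map

variable {n : ℕ} {A : Set (Fin (2 * n + 1) → ℝ)}

theorem term_bound (k : ℕ) {t u : ℝ} (h0 : 0 ≤ t) (hu : 0 ≤ u) (hu1 : u ≤ 1) :
    ‖u * (psi (k + 1) t - psi k t)‖ ≤ 3 * (1 / 3) ^ k := by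
  have h1 := psi_near k h0
  have h2 := psi_near (k + 1) h0
  have h3 : |psi (k + 1) t - psi k t| ≤ 2 / 3 ^ (k + 1) + 2 / 3 ^ k := by
    rw [abs_le] at *
    constructor <;> linarith [h1.1, h1.2, h2.1, h2.2]
  rw [Real.norm_eq_abs, abs_mul, abs_of_nonneg hu]
  have h4 : (2 : ℝ) / 3 ^ (k + 1) + 2 / 3 ^ k ≤ 3 * (1 / 3) ^ k := by
    rw [one_div, inv_pow, pow_succ]
    have h5 : (0 : ℝ) < (3 ^ k)⁻¹ := by positivity
    have h6 : (2 : ℝ) / (3 ^ k * 3) + 2 / 3 ^ k = 8 / 3 * (3 ^ k)⁻¹ := by
      field_simp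
      norm_num
    rw [h6]
    nlinarith
  have h7 : 0 ≤ |psi (k + 1) t - psi k t| := abs_nonneg _
  nlinarith

theorem summable_bound : Summable fun k : ℕ => (3 : ℝ) * (1 / 3) ^ k :=
  (summable_geometric_of_lt_one (by norm_num) (by norm_num)).mul_left _

theorem F_of_scale {x : Fin (2 * n + 1) → ℝ} {k : ℕ} (h1 : ∀ j < k, sk A j x = 1)
    (h2 : ∀ j, k < j → sk A j x = 0) : F A x = value n k (sk A k x) x := by
  funext l
  unfold F value
  rw [tsum_eq_sum (s := range (k + 1))]
  · rw [sum_range_succ]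
    have h3 : ∑ j ∈ range k, sig n l (sk A j x) * (psi (j + 1) (x l) - psi j (x l)) =
        psi k (x l) - psi 0 (x l) := by
      rw [← sum_range_sub (fun j => psi j (x l)) k]
      refine sum_congr rfl fun j hj => ?_
      rw [h1 j (mem_range.1 hj), sig_one l.isLt, one_mul]
    rw [h3]
    ring
  · intro j hj
    rw [mem_range, not_lt] at hj
    rw [h2 j (by omega), sig_zero, zero_mul]

theorem F_of_all {x : Fin (2 * n + 1) → ℝ} (hx : x ∈ menger n) (h : ∀ j, sk A j x = 1) :
    F A x = x := by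
  funext l
  unfold F
  have hx1 := ((mem_menger_iff.1 hx).1 l).1
  have h2 : HasSum (fun k => sig n l (sk A k x) * (psi (k + 1) (x l) - psi k (x l)))
      (x l - psi 0 (x l)) := by
    have hs : Summable (fun k => sig n l (sk A k x) * (psi (k + 1) (x l) - psi k (x l))) :=
      Summable.of_norm_bounded summable_bound fun k =>
        term_bound k hx1 (cl01_nonneg _) (cl01_le_one _)
    rw [hs.hasSum_iff_tendsto_nat]
    have h3 : ∀ N, ∑ k ∈ range N, sig n l (sk A k x) * (psi (k + 1) (x l) - psi k (x l)) =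
        psi N (x l) - psi 0 (x l) := by
      intro N
      rw [← sum_range_sub (fun j => psi j (x l)) N]
      refine sum_congr rfl fun j _ => ?_
      rw [h j, sig_one l.isLt, one_mul]
    simp only [h3]
    refine Tendsto.sub_const ?_ _
    rw [tendsto_iff_norm_sub_tendsto_zero]
    refine squeeze_zero (fun _ => norm_nonneg _) (fun k => ?_)
      (by simpa using (tendsto_pow_atTop_nhds_zero_of_lt_one (by norm_num : (0 : ℝ) ≤ 1 / 3)
        (by norm_num)).const_mul 2)
    rw [Real.norm_eq_abs]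
    refine (psi_near k hx1).trans ?_
    exact le_of_eq (by rw [div_eq_mul_inv])
  rw [h2.tsum_eq]
  ring

theorem continuous_F : Continuous fun x : menger n => F A x := by
  refine continuous_pi fun l => ?_
  unfold F
  refine Continuous.add ?_ ?_
  · exact (continuous_psi 0).comp ((continuous_apply l).comp continuous_subtype_val)
  · refine continuous_tsum (fun k => ?_) summable_bound ?_
    · refine Continuous.mul ?_ ?_
      · exact (continuous_sig n l).comp ((continuous_sk k).comp continuous_subtype_val)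
      · exact ((continuous_psi (k + 1)).comp
          ((continuous_apply l).comp continuous_subtype_val)).sub
          ((continuous_psi k).comp ((continuous_apply l).comp continuous_subtype_val))
    · intro k x
      exact term_bound k (((mem_menger_iff.1 x.2).1 l).1) (cl01_nonneg _) (cl01_le_one _)

theorem F_spec (hA : A.Nonempty) (hA' : A ⊆ menger n) {x : Fin (2 * n + 1) → ℝ}
    (hx : x ∈ menger n) :
    F A x ∈ menger n ∧ (F A x = x ↔ ∀ k, sk A k x = 1) := by
  by_cases h : ∀ k, sk A k x = 1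
  · rw [F_of_all hx h]
    exact ⟨hx, fun _ => h, fun _ => rfl⟩
  · have h' : ∃ k, sk A k x ≠ 1 := by
      push Not at h
      exact h
    obtain ⟨k, h1, h2, h3⟩ := exists_scale hA hA' hx h'
    rw [F_of_scale h1 h3]
    have hs : sk A k x = 0 ∨ ∃ i, ¬ ∃ c : ℤ, lam k (x i) = c := by
      rcases (sk_nonneg (A := A) k x).lt_or_eq with h4 | h4
      · exact Or.inr (sk_wall hA h4 h2)
      · exact Or.inl h4.symm
    exact ⟨value_mem hx hs, fun heq => absurd heq (value_ne hx hs), fun hall => absurd hall h⟩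

end map

/-- **The Menger compacta have the complete invariance property.** For every `n` and every
nonempty closed subset `A` of the `n`-dimensional Menger compactum there is a continuous self-map
whose fixed point set is exactly `A`. -/
theorem result (n : ℕ) (A : Set (menger n)) (hne : A.Nonempty) (hcl : IsClosed A) :
    ∃ f : menger n → menger n, Continuous f ∧ {p | f p = p} = A := by
  set A' : Set (Fin (2 * n + 1) → ℝ) := Subtype.val '' A with hA'def
  have hne' : A'.Nonempty := hne.image _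
  have hsub : A' ⊆ menger n := by
    rintro _ ⟨a, _, rfl⟩
    exact a.2
  refine ⟨fun x => ⟨F A' x, (F_spec hne' hsub x.2).1⟩, ?_, ?_⟩
  · exact continuous_F.subtype_mk _
  · ext x
    have h1 := (F_spec hne' hsub x.2).2
    constructor
    · intro hx
      have hx' : F A' (x : Fin (2 * n + 1) → ℝ) = x := congrArg Subtype.val hx
      have h2 := mem_of_sk hne' hsub x.2 (h1.1 hx')
      have h3 : x ∈ closure A := by
        rw [closure_subtype]
        exact h2
      rwa [hcl.closure_eq] at h3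
    · intro hx
      refine Subtype.ext ?_
      have hxA : (x : Fin (2 * n + 1) → ℝ) ∈ A' := ⟨x, hx, rfl⟩
      exact h1.2 fun k => sk_of_mem hxA k

end Pool.Agent.Results.MP_89afb2_gt.MengerCIP
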